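import Pool.Agent.H934.BB.Defs

/-!
# Composition of correspondences
-/

open CategoryTheory AlgebraicGeometry

universe u v

namespace Pool.Agent.H934.BB

open Pool.Agent.H914 Pool.Agent.H914.VarClass Pool.Agent.H914.VarClass.Obj

variable {k : Type u} [Field k] {𝒱 : VarClass k}

/-- The morphism `(X × Y) × Z ⟶ X × Z`. -/
noncomputable def projXZ (X Y Z : 𝒱.Obj) : (X.prod Y).prod Z ⟶ X.prod Z :=
  Obj.lift (fst (X.prod Y) Z ≫ fst X Y) (snd (X.prod Y) Z)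

/-- Composition of correspondences. -/
noncomputable def comp (T : Theory.{u, v} 𝒱) {X Y Z : 𝒱.Obj} (Γ : T.A (X.prod Y))
    (Δ : T.A (Y.prod Z)) : T.A (X.prod Z) :=
  T.push (projXZ X Y Z) (T.pull (projYZ X Y Z) Δ * T.pull (fst (X.prod Y) Z) Γ)

/-- The class of the correspondence given by `(f, g) : W ⟶ X × Y` and `w ∈ A(W)`. -/
noncomputable def span (T : Theory.{u, v} 𝒱) {W X Y : 𝒱.Obj} (f : W ⟶ X) (g : W ⟶ Y) (w : T.A W) :
    T.A (X.prod Y) :=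
  T.push (Obj.lift f g) w

section

variable {T : Theory.{u, v} 𝒱} (hF : IsFunctor T) (hO : IsOriented T)

include hF hO

lemma act_comp {X Y Z : 𝒱.Obj} (Γ : T.A (X.prod Y)) (Δ : T.A (Y.prod Z)) (a : T.A X) :
    act T (comp T Γ Δ) a = act T Δ (act T Γ a) := by
  rw [act, act, act, comp, ← hO.proj_right, hO.base_change, hF.pull_mul, ← hO.proj_left,
    ← hF.push_comp, ← hF.push_comp, ← hF.pull_comp, ← hF.pull_comp, mul_assoc]
  have h1 : projXZ X Y Z ≫ snd X Z = projYZ X Y Z ≫ snd Y Z := by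
    rw [projXZ, projYZ, lift_snd, lift_snd]
  have h2 : projXZ X Y Z ≫ fst X Z = fst (X.prod Y) Z ≫ fst X Y := by
    rw [projXZ, lift_fst]
  rw [h1, h2]

lemma act_span {W X Y : 𝒱.Obj} (f : W ⟶ X) (g : W ⟶ Y) (w : T.A W) (a : T.A X) :
    act T (span T f g w) a = T.push g (w * T.pull f a) := by
  rw [act, span, ← hO.proj_right, ← hF.push_comp, ← hF.pull_comp, lift_fst, lift_snd]

end

section

variable {T : Theory.{u, v} 𝒱} (hF : IsFunctor T)

include hF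

lemma act_add {X Y : 𝒱.Obj} (Γ : T.A (X.prod Y)) (a b : T.A X) :
    act T Γ (a + b) = act T Γ a + act T Γ b := by
  rw [act, act, act, (hF.pull_lin _).map_add, mul_add, (hF.push_lin _).map_add]

lemma act_smul {X Y : 𝒱.Obj} (Γ : T.A (X.prod Y)) (t : ℚ) (a : T.A X) :
    act T Γ (t • a) = t • act T Γ a := by
  rw [act, act, (hF.pull_lin _).map_smul]
  have h : Γ * t • T.pull (fst X Y) a = t • (Γ * T.pull (fst X Y) a) :=
    map_rat_smul (AddMonoidHom.mulLeft Γ) t (T.pull (fst X Y) a)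
  rw [h, (hF.push_lin _).map_smul]

lemma act_zero {X Y : 𝒱.Obj} (Γ : T.A (X.prod Y)) : act T Γ 0 = 0 := by
  have := act_smul hF Γ 0 0
  rwa [zero_smul, zero_smul] at this

/-- The action of a correspondence as a linear map. -/
noncomputable def actL {X Y : 𝒱.Obj} (Γ : T.A (X.prod Y)) : T.A X →ₗ[ℚ] T.A Y where
  toFun := act T Γ
  map_add' := act_add hF Γ
  map_smul' := act_smul hF Γ

end

section

variable {T : Theory.{u, v} 𝒱} {c : ℕ} (hG : IsGraded T c)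

include hG

lemma act_mem {X Y : 𝒱.Obj} {Γ : T.A (X.prod Y)} {e i j : ℕ} (hΓ : Γ ∈ T.gr (X.prod Y) e)
    (h : i + e = j + c * X.dim) {a : T.A X} (ha : a ∈ T.gr X i) : act T Γ a ∈ T.gr Y j := by
  apply hG.push_mem _ (hG.mul_mem hΓ (hG.pull_mem _ ha))
  rw [dim_prod, mul_add]
  omega

lemma comp_mem {X Y Z : 𝒱.Obj} {Γ : T.A (X.prod Y)} {Δ : T.A (Y.prod Z)} {e e' e'' : ℕ}
    (hΓ : Γ ∈ T.gr (X.prod Y) e) (hΔ : Δ ∈ T.gr (Y.prod Z) e') (h : e + e' = e'' + c * Y.dim) :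
    comp T Γ Δ ∈ T.gr (X.prod Z) e'' := by
  apply hG.push_mem _ (hG.mul_mem (hG.pull_mem _ hΔ) (hG.pull_mem _ hΓ))
  rw [dim_prod, dim_prod, dim_prod, mul_add, mul_add, mul_add]
  omega

lemma span_mem {W X Y : 𝒱.Obj} (f : W ⟶ X) (g : W ⟶ Y) {w : T.A W} {i j : ℕ} (hw : w ∈ T.gr W i)
    (h : i + c * (X.dim + Y.dim) = j + c * W.dim) : span T f g w ∈ T.gr (X.prod Y) j := by
  apply hG.push_mem _ hw
  rw [dim_prod]
  exact h

end

section

variable {D : ChowData.{u, v} 𝒱} (hD : IsChow D)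

include hD

lemma cl_act {X Y : 𝒱.Obj} (Γ : D.C.A (X.prod Y)) (a : D.C.A X) :
    D.cl Y (act D.C Γ a) = act D.H (D.cl (X.prod Y) Γ) (D.cl X a) := by
  rw [act, act, hD.cycleClass.cl_push, hD.cycleClass.cl_mul, hD.cycleClass.cl_pull]

lemma cl_comp {X Y Z : 𝒱.Obj} (Γ : D.C.A (X.prod Y)) (Δ : D.C.A (Y.prod Z)) :
    D.cl (X.prod Z) (comp D.C Γ Δ) = comp D.H (D.cl (X.prod Y) Γ) (D.cl (Y.prod Z) Δ) := by
  rw [comp, comp, hD.cycleClass.cl_push, hD.cycleClass.cl_mul, hD.cycleClass.cl_pull,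
    hD.cycleClass.cl_pull]

lemma act_shifts {X Y : 𝒱.Obj} {Γ : D.C.A (X.prod Y)} {j j' : ℕ} (hΓ : Shifts D Γ j j')
    {a : D.C.A X} (ha : a ∈ D.C.gr X j) : act D.C Γ a ∈ D.C.gr Y j' := by
  obtain ⟨e, he, hΓe⟩ := hΓ
  exact act_mem hD.gradedC hΓe (by omega) ha

/-- Composition of correspondences, with the codimensions. -/
lemma shifts_comp {X Y Z : 𝒱.Obj} {Γ : D.C.A (X.prod Y)} {Δ : D.C.A (Y.prod Z)} {j j' j'' : ℕ}
    (hΓ : Shifts D Γ j j') (hΔ : Shifts D Δ j' j'') (hj : j ≤ j'' + X.dim) :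
    Shifts D (comp D.C Γ Δ) j j'' := by
  obtain ⟨e, he, hΓe⟩ := hΓ
  obtain ⟨e', he', hΔe⟩ := hΔ
  exact ⟨j'' + X.dim - j, by omega, comp_mem hD.gradedC hΓe hΔe (by omega)⟩

lemma isZeroOn_comp_left {X Y Z : 𝒱.Obj} {Γ : D.C.A (X.prod Y)} {Δ : D.C.A (Y.prod Z)} {j ν : ℕ}
    (h : IsZeroOn D Γ j ν) : IsZeroOn D (comp D.C Γ Δ) j ν := by
  intro m hm a ha
  rw [cl_comp hD, act_comp hD.functorH hD.orientedH, h m hm a ha, act_zero hD.functorH]

/-- A correspondence of degree zero, followed by a correspondence that is zero on `H^(2 j - ν)`. -/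
lemma isZeroOn_comp_right {X Y Z : 𝒱.Obj} {Γ : D.C.A (X.prod Y)} {Δ : D.C.A (Y.prod Z)} {j ν : ℕ}
    (hΓ : Γ ∈ D.C.gr (X.prod Y) X.dim) (h : IsZeroOn D Δ j ν) :
    IsZeroOn D (comp D.C Γ Δ) j ν := by
  intro m hm a ha
  rw [cl_comp hD, act_comp hD.functorH hD.orientedH]
  apply h m hm
  exact act_mem hD.gradedH (hD.cycleClass.cl_mem hΓ) (by omega) ha

end

end Pool.Agent.H934.BB
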