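import Pool.Agent.H914R2.Weil

/-!
# Chow groups, cohomology and Abel-Jacobi maps; Bloch-Beilinson filtrations

The varieties are the concrete ones of `Pool.Agent.H914R2.Var` (smooth proper geometrically irreducible
schemes over a field, for example all smooth projective varieties over `ℂ`), and the Chow groups are
quotients of the groups of cycles with rational coefficients.
-/

open CategoryTheory AlgebraicGeometry

universe u v

namespace Pool.Agent.H934.BB

open Pool.Agent.H914 Pool.Agent.H914.VarClass Pool.Agent.H914.VarClass.Obj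

variable {k : Type u} [Field k]

/-- Rings `A(X)` with subspaces `A^i(X)` for the varieties `X` of the class `𝒱`, with pull-backs and
push-forwards: the data of Chow rings (with rational coefficients) or of cohomology rings. -/
structure Theory (𝒱 : VarClass k) where
  /-- the ring attached to a variety -/
  A : 𝒱.Obj → Type v
  [ring : ∀ X, Ring (A X)]
  [module : ∀ X, Module ℚ (A X)]
  /-- the part of degree `i` -/
  gr : ∀ X, ℕ → Submodule ℚ (A X)
  /-- pull-back -/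
  pull : ∀ {X Y : 𝒱.Obj}, (X ⟶ Y) → A Y → A X
  /-- push-forward -/
  push : ∀ {X Y : 𝒱.Obj}, (X ⟶ Y) → A X → A Y

attribute [instance] Theory.ring Theory.module

variable {𝒱 : VarClass k}

/-- The morphism `(X × Y) × Z ⟶ Y × Z`. -/
noncomputable def projYZ (X Y Z : 𝒱.Obj) : (X.prod Y).prod Z ⟶ Y.prod Z :=
  Obj.lift (fst (X.prod Y) Z ≫ snd X Y) (snd (X.prod Y) Z)

/-- The degrees behave as in the Chow ring (`c = 1`, degree = codimension) or in cohomology (`c = 2`):
the degrees are at most `c dim X`, products add the degrees, pull-backs keep them, and the push-forward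
by `f : X ⟶ Y` lowers them by `c (dim X - dim Y)`. -/
structure IsGraded (T : Theory.{u, v} 𝒱) (c : ℕ) : Prop where
  one_mem : ∀ X, 1 ∈ T.gr X 0
  eq_zero : ∀ {X i a}, a ∈ T.gr X i → c * X.dim < i → a = 0
  mul_mem : ∀ {X i j a b}, a ∈ T.gr X i → b ∈ T.gr X j → a * b ∈ T.gr X (i + j)
  pull_mem : ∀ {X Y : 𝒱.Obj} (f : X ⟶ Y) {i a}, a ∈ T.gr Y i → T.pull f a ∈ T.gr X i
  push_mem : ∀ {X Y : 𝒱.Obj} (f : X ⟶ Y) {i j a}, a ∈ T.gr X i → i + c * Y.dim = j + c * X.dim →
    T.push f a ∈ T.gr Y j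

/-- Pull-back is a contravariant functor to rings, push-forward a covariant functor to vector spaces
over `ℚ`. -/
structure IsFunctor (T : Theory.{u, v} 𝒱) : Prop where
  pull_mul : ∀ {X Y : 𝒱.Obj} (f : X ⟶ Y) a b, T.pull f (a * b) = T.pull f a * T.pull f b
  pull_lin : ∀ {X Y : 𝒱.Obj} (f : X ⟶ Y), IsLinearMap ℚ (T.pull f)
  push_lin : ∀ {X Y : 𝒱.Obj} (f : X ⟶ Y), IsLinearMap ℚ (T.push f)
  pull_comp : ∀ {X Y Z : 𝒱.Obj} (f : X ⟶ Y) (g : Y ⟶ Z) a, T.pull (f ≫ g) a = T.pull f (T.pull g a)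
  push_id : ∀ {X : 𝒱.Obj} a, T.push (𝟙 X) a = a
  push_comp : ∀ {X Y Z : 𝒱.Obj} (f : X ⟶ Y) (g : Y ⟶ Z) a, T.push (f ≫ g) a = T.push g (T.push f a)

/-- The projection formulas, and base change in the square formed by the projections
`(X × Y) × Z ⟶ Y × Z`, `(X × Y) × Z ⟶ X × Y`, `Y × Z ⟶ Y`, `X × Y ⟶ Y`. -/
structure IsOriented (T : Theory.{u, v} 𝒱) : Prop where
  proj_right : ∀ {X Y : 𝒱.Obj} (f : X ⟶ Y) a b, T.push f (a * T.pull f b) = T.push f a * b
  proj_left : ∀ {X Y : 𝒱.Obj} (f : X ⟶ Y) a b, T.push f (T.pull f b * a) = b * T.push f a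
  base_change : ∀ (X Y Z : 𝒱.Obj) a,
    T.pull (fst Y Z) (T.push (snd X Y) a) = T.push (projYZ X Y Z) (T.pull (fst (X.prod Y) Z) a)

/-- The action `Γ_* a = q_* (Γ · p^* a)` of `Γ ∈ A(X × Y)`, where `p`, `q` are the projections. -/
noncomputable def act (T : Theory.{u, v} 𝒱) {X Y : 𝒱.Obj} (Γ : T.A (X.prod Y)) (a : T.A X) : T.A Y :=
  T.push (snd X Y) (Γ * T.pull (fst X Y) a)

/-- Chow groups with rational coefficients, a cohomology theory and the cycle class maps, for the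
varieties in the class `𝒱`: the data. -/
structure ChowData (𝒱 : VarClass k) where
  /-- the Chow rings -/
  C : Theory.{u, v} 𝒱
  /-- the cohomology rings -/
  H : Theory.{u, v} 𝒱
  /-- the class of a cycle in the Chow group -/
  cyc : ∀ X : 𝒱.Obj, X.Cycles → C.A X
  /-- the cycle class maps -/
  cl : ∀ X, C.A X → H.A X

/-- `CH^i(X)` consists of the classes of the cycles of codimension `i`, and the cycle class maps are
ring homomorphisms `CH^i(X) → H^(2i)(X)` compatible with pull-backs and push-forwards. -/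
structure IsCycleClass (D : ChowData.{u, v} 𝒱) : Prop where
  cyc_lin : ∀ X, IsLinearMap ℚ (D.cyc X)
  gr_iff : ∀ X i a, a ∈ D.C.gr X i ↔ ∃ z, X.IsCyc i z ∧ D.cyc X z = a
  cl_lin : ∀ X, IsLinearMap ℚ (D.cl X)
  cl_mul : ∀ {X} a b, D.cl X (a * b) = D.cl X a * D.cl X b
  cl_mem : ∀ {X i a}, a ∈ D.C.gr X i → D.cl X a ∈ D.H.gr X (2 * i)
  cl_pull : ∀ {X Y : 𝒱.Obj} (f : X ⟶ Y) a, D.cl X (D.C.pull f a) = D.H.pull f (D.cl Y a)
  cl_push : ∀ {X Y : 𝒱.Obj} (f : X ⟶ Y) a, D.cl Y (D.C.push f a) = D.H.push f (D.cl X a)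

/-- There are zero-cycles `y` of degree one on all varieties `Y`: the direct image of `X × y` under the
projection `X × Y ⟶ X` is `[X]`; and similarly for the other projection. -/
def HasPoints (T : Theory.{u, v} 𝒱) : Prop :=
  ∀ X Y : 𝒱.Obj, (∃ y ∈ T.gr Y Y.dim, T.push (fst X Y) (T.pull (snd X Y) y) = 1) ∧
    ∃ x ∈ T.gr X X.dim, T.push (snd X Y) (T.pull (fst X Y) x) = 1

/-- The laws for Chow groups, cohomology and cycle class maps. -/
structure IsChow (D : ChowData.{u, v} 𝒱) : Prop where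
  gradedC : IsGraded D.C 1
  gradedH : IsGraded D.H 2
  functorC : IsFunctor D.C
  functorH : IsFunctor D.H
  orientedC : IsOriented D.C
  orientedH : IsOriented D.H
  cycleClass : IsCycleClass D
  points : HasPoints D.C

/-- The correspondence `Γ ∈ CH^e(X × Y)` is of the codimension `e` with `j + e = j' + dim X`, so that
`Γ_*` maps `CH^j(X)` to `CH^(j')(Y)`. -/
def Shifts (D : ChowData.{u, v} 𝒱) {X Y : 𝒱.Obj} (Γ : D.C.A (X.prod Y)) (j j' : ℕ) : Prop :=
  ∃ e, j + e = j' + X.dim ∧ Γ ∈ D.C.gr (X.prod Y) e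

/-- `[Γ]_*` is zero on `H^m(X)` for the integer `m = 2 j - ν` (no condition if it is negative). -/
def IsZeroOn (D : ChowData.{u, v} 𝒱) {X Y : 𝒱.Obj} (Γ : D.C.A (X.prod Y)) (j ν : ℕ) : Prop :=
  ∀ m, m + ν = 2 * j → ∀ a ∈ D.H.gr X m, act D.H (D.cl (X.prod Y) Γ) a = 0

/-- The class `z` is in the group `CH^j(X)_hom` of homologically trivial classes. -/
def IsHomTriv (D : ChowData.{u, v} 𝒱) (X : 𝒱.Obj) (j : ℕ) (z : D.C.A X) : Prop :=
  z ∈ D.C.gr X j ∧ D.cl X z = 0

/-- Abel-Jacobi maps. -/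
structure AbelJacobi (D : ChowData.{u, v} 𝒱) where
  /-- the intermediate Jacobian `J^(2 j - 1)(X) ⊗ ℚ` -/
  J : 𝒱.Obj → ℕ → Type v
  [grp : ∀ X j, AddCommGroup (J X j)]
  [mod : ∀ X j, Module ℚ (J X j)]
  /-- the Abel-Jacobi map (only the values on `CH^j(X)_hom` matter) -/
  aj : ∀ X j, D.C.A X → J X j

attribute [instance] AbelJacobi.grp AbelJacobi.mod

/-- The linear map `t` of intermediate Jacobians is induced by the correspondence `Γ`. -/
def IsInduced {D : ChowData.{u, v} 𝒱} (M : AbelJacobi D) {X Y : 𝒱.Obj} (Γ : D.C.A (X.prod Y))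
    (j j' : ℕ) (t : M.J X j →ₗ[ℚ] M.J Y j') : Prop :=
  ∀ z, IsHomTriv D X j z → M.aj Y j' (act D.C Γ z) = t (M.aj X j z)

/-- The Abel-Jacobi maps are linear and compatible with correspondences: a correspondence induces maps
of the intermediate Jacobians, which are zero if it is zero on `H^(2 j - 1)`. -/
structure IsAbelJacobi {D : ChowData.{u, v} 𝒱} (M : AbelJacobi D) : Prop where
  add : ∀ {X j z w}, IsHomTriv D X j z → IsHomTriv D X j w →
    M.aj X j (z + w) = M.aj X j z + M.aj X j w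
  smul : ∀ {X j z} (t : ℚ), IsHomTriv D X j z → M.aj X j (t • z) = t • M.aj X j z
  corr : ∀ {X Y : 𝒱.Obj} {Γ : D.C.A (X.prod Y)} {j j'}, Shifts D Γ j j' →
    ∃ t, IsInduced M Γ j j' t ∧ (IsZeroOn D Γ j 1 → t = 0)

/-- The class `z` is in the kernel of the Abel-Jacobi map on `CH^j(X)_hom`. -/
def IsAJTriv {D : ChowData.{u, v} 𝒱} (M : AbelJacobi D) (X : 𝒱.Obj) (j : ℕ) (z : D.C.A X) : Prop :=
  IsHomTriv D X j z ∧ M.aj X j z = 0

/-- Subspaces `F^ν CH^j(X)`, written `F X ν j`. -/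
abbrev Filtration (D : ChowData.{u, v} 𝒱) := ∀ X : 𝒱.Obj, ℕ → ℕ → Submodule ℚ (D.C.A X)

/-- `F^ν CH^j(X)` is decreasing in `ν`, and `F^0 = CH^j(X)`, `F^1 = CH^j(X)_hom`, `F^2` is the kernel of
the Abel-Jacobi map and `F^(j + 1) CH^j(X) = 0`. -/
structure IsFiltration {D : ChowData.{u, v} 𝒱} (M : AbelJacobi D) (F : Filtration D) (X : 𝒱.Obj) :
    Prop where
  anti : ∀ ν j, F X (ν + 1) j ≤ F X ν j
  zero : ∀ j, F X 0 j = D.C.gr X j
  one : ∀ j z, z ∈ F X 1 j ↔ IsHomTriv D X j z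
  two : ∀ j z, z ∈ F X 2 j ↔ IsAJTriv M X j z
  top : ∀ j z, z ∈ F X (j + 1) j → z = 0

/-- All correspondences `Γ` from `X` to `Y` respect the filtration, and `Γ` is zero on `gr^ν CH^j(X)` if
it is zero on `H^(2 j - ν)(X)`. -/
structure IsRespected {D : ChowData.{u, v} 𝒱} (F : Filtration D) (X Y : 𝒱.Obj) : Prop where
  map : ∀ (Γ : D.C.A (X.prod Y)) ν j j', Shifts D Γ j j' → ∀ z ∈ F X ν j, act D.C Γ z ∈ F Y ν j'
  gr : ∀ (Γ : D.C.A (X.prod Y)) ν j j', Shifts D Γ j j' → IsZeroOn D Γ j ν →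
    ∀ z ∈ F X ν j, act D.C Γ z ∈ F Y (ν + 1) j'

/-- The filtration `F` on the Chow groups of the varieties in the set `S` is a Bloch-Beilinson
filtration with respect to all correspondences between varieties in `S`. For the set of all varieties
these are the conditions 1 - 4 of the definition. -/
def IsBB {D : ChowData.{u, v} 𝒱} (M : AbelJacobi D) (S : Set 𝒱.Obj) (F : Filtration D) : Prop :=
  (∀ X ∈ S, IsFiltration M F X) ∧ ∀ X ∈ S, ∀ Y ∈ S, IsRespected F X Y

/-- `Chain M X ν j z`: the class `z ∈ CH^j(X)` is of the form `Γ_(ν-1)_* ⋯ Γ_3_* Γ_2_* w`, where `w` is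
in the kernel of the Abel-Jacobi map and `Γ_i` is a correspondence from `X` to `X` which is zero on
`H^(2 j_i - i)(X)`, where `j_i` is the codimension of the cycle `Γ_(i-1)_* ⋯ Γ_2_* w` to which it is
applied. -/
inductive Chain {D : ChowData.{u, v} 𝒱} (M : AbelJacobi D) (X : 𝒱.Obj) : ℕ → ℕ → D.C.A X → Prop
  | start (j : ℕ) (w : D.C.A X) (hw : IsAJTriv M X j w) : Chain M X 2 j w
  | step (ν j j' : ℕ) (z : D.C.A X) (Γ : D.C.A (X.prod X)) (hz : Chain M X ν j z)
      (hΓ : Shifts D Γ j j') (h0 : IsZeroOn D Γ j ν) : Chain M X (ν + 1) j' (act D.C Γ z)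

/-- There is no obstruction on `X` against a Bloch-Beilinson filtration: `CH^0(X)_hom = 0`, and the
chains which would have to be in `F^(j+1) CH^j(X)` are zero. -/
def NoObstruction {D : ChowData.{u, v} 𝒱} (M : AbelJacobi D) (X : 𝒱.Obj) : Prop :=
  (∀ z, IsHomTriv D X 0 z → z = 0) ∧ ∀ j z, Chain M X (j + 1) j z → z = 0

/-- The variety `Z` dominates `X`: there are a morphism `g : Z ⟶ X` and `w ∈ CH(Z)` with `g_* w = 1`
(this holds if `g` is surjective). -/
def Dominates (D : ChowData.{u, v} 𝒱) (Z X : 𝒱.Obj) : Prop :=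
  ∃ (g : Z ⟶ X) (i : ℕ), i + X.dim = Z.dim ∧ ∃ w ∈ D.C.gr Z i, D.C.push g w = 1

end Pool.Agent.H934.BB
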