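import Pool.Agent.H934.BB.Corr

/-!
# Bloch-Beilinson filtrations exist if they exist for each variety separately
-/

open CategoryTheory AlgebraicGeometry

universe u v

namespace Pool.Agent.H934.BB

open Pool.Agent.H914 Pool.Agent.H914.VarClass Pool.Agent.H914.VarClass.Obj

variable {k : Type u} [Field k] {𝒱 : VarClass k} {D : ChowData.{u, v} 𝒱}

/-- The variety `X` is a factor of `Z`: there are correspondences of degree zero from `X` to `Z` and
from `Z` to `X` whose composition is the identity on the Chow group of `X`. -/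
def IsFactor (D : ChowData.{u, v} 𝒱) (X Z : 𝒱.Obj) : Prop :=
  X.dim ≤ Z.dim ∧ ∃ s ∈ D.C.gr (X.prod Z) X.dim, ∃ p ∈ D.C.gr (Z.prod X) Z.dim,
    ∀ a, act D.C p (act D.C s a) = a

section factor

variable (hD : IsChow D)

include hD

lemma Dominates.isFactor {Z X : 𝒱.Obj} (h : Dominates D Z X) : IsFactor D X Z := by
  obtain ⟨g, i, hi, w, hw, hgw⟩ := h
  refine ⟨by omega, span D.C g (𝟙 Z) 1, ?_, span D.C (𝟙 Z) g w, ?_, fun a => ?_⟩
  · exact span_mem hD.gradedC _ _ (hD.gradedC.one_mem Z) (by omega)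
  · exact span_mem hD.gradedC _ _ hw (by omega)
  · rw [act_span hD.functorC hD.orientedC, act_span hD.functorC hD.orientedC, one_mul,
      hD.functorC.push_id]
    have h1 : D.C.pull (𝟙 Z) (D.C.pull g a) = D.C.pull g a := by
      rw [← hD.functorC.pull_comp, Category.id_comp]
    rw [h1, hD.orientedC.proj_right, hgw, one_mul]

lemma dominates_left (X Y : 𝒱.Obj) : Dominates D (X.prod Y) X := by
  obtain ⟨⟨y, hy, h1⟩, -⟩ := hD.points X Y
  refine ⟨fst X Y, Y.dim, ?_, D.C.pull (snd X Y) y, hD.gradedC.pull_mem _ hy, h1⟩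
  rw [dim_prod]
  omega

lemma dominates_right (X Y : 𝒱.Obj) : Dominates D (X.prod Y) Y := by
  obtain ⟨-, x, hx, h1⟩ := hD.points X Y
  refine ⟨snd X Y, X.dim, ?_, D.C.pull (fst X Y) x, hD.gradedC.pull_mem _ hx, h1⟩
  rw [dim_prod]

lemma IsFactor.trans {X Y Z : 𝒱.Obj} (h : IsFactor D X Y) (h' : IsFactor D Y Z) :
    IsFactor D X Z := by
  obtain ⟨h0, s, hs, p, hp, h1⟩ := h
  obtain ⟨h0', s', hs', p', hp', h1'⟩ := h'
  refine ⟨h0.trans h0', comp D.C s s', comp_mem hD.gradedC hs hs' (by omega), comp D.C p' p,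
    comp_mem hD.gradedC hp' hp (by omega), fun a => ?_⟩
  rw [act_comp hD.functorC hD.orientedC, act_comp hD.functorC hD.orientedC, h1', h1]

end factor

section min

variable (hD : IsChow D) {M : AbelJacobi D} (hM : IsAbelJacobi M)

include hD in
lemma IsHomTriv.act {X Y : 𝒱.Obj} {Γ : D.C.A (X.prod Y)} {j j' : ℕ} (hΓ : Shifts D Γ j j')
    {z : D.C.A X} (hz : IsHomTriv D X j z) : IsHomTriv D Y j' (act D.C Γ z) :=
  ⟨act_shifts hD hΓ hz.1, by rw [cl_act hD, hz.2, act_zero hD.functorH]⟩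

include hD hM in
lemma IsAJTriv.act {X Y : 𝒱.Obj} {Γ : D.C.A (X.prod Y)} {j j' : ℕ} (hΓ : Shifts D Γ j j')
    {z : D.C.A X} (hz : IsAJTriv M X j z) : IsAJTriv M Y j' (act D.C Γ z) := by
  refine ⟨hz.1.act hD hΓ, ?_⟩
  obtain ⟨t, ht, -⟩ := hM.corr hΓ
  rw [ht z hz.1, hz.2, map_zero]

/-- The homologically trivial classes. -/
def homSub (hD : IsChow D) (X : 𝒱.Obj) (j : ℕ) : Submodule ℚ (D.C.A X) where
  carrier := {z | IsHomTriv D X j z}
  add_mem' := fun {a b} ha hb => ⟨Submodule.add_mem _ ha.1 hb.1, by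
    rw [(hD.cycleClass.cl_lin X).map_add, ha.2, hb.2, add_zero]⟩
  zero_mem' := ⟨Submodule.zero_mem _, (hD.cycleClass.cl_lin X).map_zero⟩
  smul_mem' := fun t a ha => ⟨Submodule.smul_mem _ t ha.1, by
    rw [(hD.cycleClass.cl_lin X).map_smul, ha.2, smul_zero]⟩

/-- The kernel of the Abel-Jacobi map. -/
def ajSub (hD : IsChow D) (hM : IsAbelJacobi M) (X : 𝒱.Obj) (j : ℕ) : Submodule ℚ (D.C.A X) where
  carrier := {z | IsAJTriv M X j z}
  add_mem' := fun {a b} ha hb => ⟨(homSub hD X j).add_mem ha.1 hb.1, by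
    rw [hM.add ha.1 hb.1, ha.2, hb.2, add_zero]⟩
  zero_mem' := ⟨(homSub hD X j).zero_mem, by
    have h := hM.smul (0 : ℚ) ((homSub hD X j).zero_mem : IsHomTriv D X j 0)
    rwa [zero_smul, zero_smul] at h⟩
  smul_mem' := fun t a ha => ⟨(homSub hD X j).smul_mem t ha.1, by
    rw [hM.smul t ha.1, ha.2, smul_zero]⟩

/-- The generators of the step `ν + 1` of the smallest filtration, for `ν ≥ 2`. -/
def gens (D : ChowData.{u, v} 𝒱) (F : ∀ X : 𝒱.Obj, ℕ → Submodule ℚ (D.C.A X)) (ν : ℕ) (Y : 𝒱.Obj)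
    (j' : ℕ) : Set (D.C.A Y) :=
  {x | ∃ (X : 𝒱.Obj) (j : ℕ) (Γ : D.C.A (X.prod Y)) (z : D.C.A X), z ∈ F X j ∧ j ≤ j' + X.dim ∧
    Shifts D Γ j j' ∧ IsZeroOn D Γ j ν ∧ act D.C Γ z = x}

/-- The smallest filtration (the step comes first). -/
noncomputable def minF (hD : IsChow D) (hM : IsAbelJacobi M) : ℕ → ∀ X : 𝒱.Obj, ℕ →
    Submodule ℚ (D.C.A X)
  | 0 => fun X j => D.C.gr X j
  | 1 => fun X j => homSub hD X j
  | 2 => fun X j => ajSub hD hM X j
  | (ν + 3) => fun Y j' => Submodule.span ℚ (gens D (minF hD hM (ν + 2)) (ν + 2) Y j')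

lemma minF_le_gr (ν : ℕ) : ∀ (X : 𝒱.Obj) (j : ℕ), minF hD hM ν X j ≤ D.C.gr X j := by
  induction ν using Nat.strong_induction_on with
  | _ ν ih =>
    match ν with
    | 0 => exact fun X j => le_rfl
    | 1 => exact fun X j z hz => hz.1
    | 2 => exact fun X j z hz => hz.1.1
    | (ν + 3) =>
      intro X j
      rw [minF, Submodule.span_le]
      rintro _ ⟨Y, i, Γ, z, hz, -, hΓ, -, rfl⟩
      exact act_shifts hD hΓ (ih (ν + 2) (by omega) Y i hz)

/-- All correspondences respect the smallest filtration. -/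
lemma minF_map (ν : ℕ) {X Y : 𝒱.Obj} {Γ : D.C.A (X.prod Y)} {j j' : ℕ} (hΓ : Shifts D Γ j j')
    {z : D.C.A X} (hz : z ∈ minF hD hM ν X j) : act D.C Γ z ∈ minF hD hM ν Y j' := by
  match ν with
  | 0 => exact act_shifts hD hΓ hz
  | 1 => exact IsHomTriv.act hD hΓ hz
  | 2 => exact IsAJTriv.act hD hM hΓ hz
  | (ν + 3) =>
    rw [minF] at hz ⊢
    have h1 : Submodule.span ℚ (gens D (minF hD hM (ν + 2)) (ν + 2) X j) ≤
        (Submodule.span ℚ (gens D (minF hD hM (ν + 2)) (ν + 2) Y j')).comap (actL hD.functorC Γ) := by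
      rw [Submodule.span_le]
      rintro _ ⟨V, i, Δ, w, hw, hi, hΔ, h0, rfl⟩
      change act D.C Γ (act D.C Δ w) ∈
        Submodule.span ℚ (gens D (minF hD hM (ν + 2)) (ν + 2) Y j')
      rw [← act_comp hD.functorC hD.orientedC]
      by_cases hij : i ≤ j' + V.dim
      · exact Submodule.subset_span ⟨V, i, comp D.C Δ Γ, w, hw, hij,
          shifts_comp hD hΔ hΓ hij, isZeroOn_comp_left hD h0, rfl⟩
      · have hw0 : w = 0 := hD.gradedC.eq_zero (minF_le_gr hD hM _ _ _ hw) (by omega)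
        rw [hw0, act_zero hD.functorC]
        exact Submodule.zero_mem _
    exact h1 hz

lemma minF_gr (ν : ℕ) {X Y : 𝒱.Obj} {Γ : D.C.A (X.prod Y)} {j j' : ℕ} (hΓ : Shifts D Γ j j')
    (h0 : IsZeroOn D Γ j ν) {z : D.C.A X} (hz : z ∈ minF hD hM ν X j) :
    act D.C Γ z ∈ minF hD hM (ν + 1) Y j' := by
  match ν with
  | 0 =>
    have hz' : z ∈ D.C.gr X j := hz
    refine ⟨act_shifts hD hΓ hz', ?_⟩
    rw [cl_act hD]
    exact h0 (2 * j) rfl _ (hD.cycleClass.cl_mem hz')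
  | 1 =>
    have hz' : IsHomTriv D X j z := hz
    refine ⟨hz'.act hD hΓ, ?_⟩
    obtain ⟨t, ht, ht0⟩ := hM.corr hΓ
    rw [ht z hz', ht0 h0, LinearMap.zero_apply]
  | (ν + 2) =>
    rw [minF]
    by_cases hij : j ≤ j' + X.dim
    · exact Submodule.subset_span ⟨X, j, Γ, z, hz, hij, hΓ, h0, rfl⟩
    · have hz0 : z = 0 := hD.gradedC.eq_zero (minF_le_gr hD hM _ _ _ hz) (by omega)
      rw [hz0, act_zero hD.functorC]
      exact Submodule.zero_mem _

lemma minF_anti (ν : ℕ) : ∀ (X : 𝒱.Obj) (j : ℕ), minF hD hM (ν + 1) X j ≤ minF hD hM ν X j := by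
  match ν with
  | 0 => exact fun X j z hz => hz.1
  | 1 => exact fun X j z hz => hz.1
  | (ν + 2) =>
    intro X j
    rw [minF, Submodule.span_le]
    rintro _ ⟨Y, i, Γ, z, hz, -, hΓ, -, rfl⟩
    exact minF_map hD hM (ν + 2) hΓ hz

/-- The span of the chains on a variety. -/
noncomputable def chainSpan (M : AbelJacobi D) (Z : 𝒱.Obj) (ν j : ℕ) : Submodule ℚ (D.C.A Z) :=
  Submodule.span ℚ {z | Chain M Z ν j z}

include hD hM in
/-- **The smallest filtration is computed on a single variety.** -/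
lemma exists_bound (ν : ℕ) : ∀ (X : 𝒱.Obj) (j : ℕ) (z : D.C.A X), z ∈ minF hD hM (ν + 2) X j →
    ∃ Z0 : 𝒱.Obj, ∀ Z, IsFactor D Z0 Z → ∀ s ∈ D.C.gr (X.prod Z) X.dim,
      act D.C s z ∈ chainSpan M Z (ν + 2) j := by
  induction ν with
  | zero =>
    intro X j z hz
    refine ⟨X, fun Z _ s hs => Submodule.subset_span (Chain.start j _ ?_)⟩
    exact IsAJTriv.act hD hM ⟨X.dim, rfl, hs⟩ hz
  | succ ν ih =>
    intro X j z hz
    rw [show ν + 1 + 2 = ν + 3 from rfl, minF] at hz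
    induction hz using Submodule.span_induction with
    | mem x hx =>
      obtain ⟨Y, i, Γ, w, hw, hij, hΓ, h0, rfl⟩ := hx
      obtain ⟨Z1, hZ1⟩ := ih Y i w hw
      refine ⟨Z1.prod Y, fun Z hZ s hs => ?_⟩
      have hf1 : IsFactor D Z1 Z := ((dominates_left hD Z1 Y).isFactor hD).trans hD hZ
      obtain ⟨hdim, s', hs', p', hp', hsp⟩ := ((dominates_right hD Z1 Y).isFactor hD).trans hD hZ
      have h1 := hZ1 Z hf1 s' hs'
      have h2 : Shifts D (comp D.C (comp D.C p' Γ) s) i j := by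
        obtain ⟨e, he, hΓe⟩ := hΓ
        refine ⟨e + (Z.dim - Y.dim), by omega, ?_⟩
        refine comp_mem hD.gradedC (e := e + (Z.dim - Y.dim))
          (comp_mem hD.gradedC hp' hΓe (by omega)) hs (by omega)
      have h3 : IsZeroOn D (comp D.C (comp D.C p' Γ) s) i (ν + 2) :=
        isZeroOn_comp_left hD (isZeroOn_comp_right hD hp' h0)
      have h4 : chainSpan M Z (ν + 2) i ≤ (chainSpan M Z (ν + 1 + 2) j).comap
          (actL hD.functorC (comp D.C (comp D.C p' Γ) s)) := by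
        rw [chainSpan, Submodule.span_le]
        intro y hy
        exact Submodule.subset_span (Chain.step (ν + 2) i j y _ hy h2 h3)
      have h5 := h4 h1
      change act D.C (comp D.C (comp D.C p' Γ) s) (act D.C s' w) ∈
        chainSpan M Z (ν + 1 + 2) j at h5
      rw [act_comp hD.functorC hD.orientedC, act_comp hD.functorC hD.orientedC, hsp] at h5
      exact h5
    | zero =>
      refine ⟨X, fun Z _ s _ => ?_⟩
      rw [act_zero hD.functorC]
      exact Submodule.zero_mem _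
    | add x y _ _ hx hy =>
      obtain ⟨Z1, hZ1⟩ := hx
      obtain ⟨Z2, hZ2⟩ := hy
      refine ⟨Z1.prod Z2, fun Z hZ s hs => ?_⟩
      rw [act_add hD.functorC]
      exact Submodule.add_mem _
        (hZ1 Z (((dominates_left hD Z1 Z2).isFactor hD).trans hD hZ) s hs)
        (hZ2 Z (((dominates_right hD Z1 Z2).isFactor hD).trans hD hZ) s hs)
    | smul t x _ hx =>
      obtain ⟨Z1, hZ1⟩ := hx
      refine ⟨Z1, fun Z hZ s hs => ?_⟩
      rw [act_smul hD.functorC]
      exact Submodule.smul_mem _ t (hZ1 Z hZ s hs)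

/-- If there are no obstructions on the varieties of a cofinal class, then the smallest filtration is
a Bloch-Beilinson filtration. -/
theorem isBB_minF {S : Set 𝒱.Obj} (hS : ∀ X, ∃ Z ∈ S, Dominates D Z X)
    (h : ∀ Z ∈ S, NoObstruction M Z) :
    IsBB M Set.univ (fun X ν j => minF hD hM ν X j) := by
  refine ⟨fun X _ => ⟨fun ν j => minF_anti hD hM ν X j, fun j => rfl, fun j z => Iff.rfl,
    fun j z => Iff.rfl, fun j z hz => ?_⟩, fun X _ Y _ =>
    ⟨fun Γ ν j j' hΓ z hz => minF_map hD hM ν hΓ hz,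
      fun Γ ν j j' hΓ h0 z hz => minF_gr hD hM ν hΓ h0 hz⟩⟩
  match j with
  | 0 =>
    obtain ⟨Z, hZ, hdom⟩ := hS X
    obtain ⟨hdim, s, hs, p, hp, hsp⟩ := hdom.isFactor hD
    have hz' : IsHomTriv D X 0 z := hz
    have h1 : act D.C s z = 0 := (h Z hZ).1 _ (hz'.act hD ⟨X.dim, rfl, hs⟩)
    rw [← hsp z, h1, act_zero hD.functorC]
  | (j + 1) =>
    obtain ⟨Z0, hZ0⟩ := exists_bound hD hM j X (j + 1) z hz
    obtain ⟨Z, hZ, hdom⟩ := hS (Z0.prod X)
    have hf := hdom.isFactor hD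
    obtain ⟨hdim, s, hs, p, hp, hsp⟩ := ((dominates_right hD Z0 X).isFactor hD).trans hD hf
    have h1 := hZ0 Z (((dominates_left hD Z0 X).isFactor hD).trans hD hf) s hs
    have h2 : chainSpan M Z (j + 2) (j + 1) ≤ ⊥ := by
      rw [chainSpan, Submodule.span_le]
      intro y hy
      exact (h Z hZ).2 (j + 1) y hy
    have h3 : act D.C s z = 0 := (Submodule.mem_bot ℚ).1 (h2 h1)
    rw [← hsp z, h3, act_zero hD.functorC]

/-- A Bloch-Beilinson filtration on a single variety excludes the obstructions. -/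
theorem noObstruction {X : 𝒱.Obj} {F : Filtration D} (hF : IsBB M {X} F) : NoObstruction M X := by
  have h1 := hF.1 X rfl
  have h2 := hF.2 X rfl X rfl
  have h3 : ∀ ν j z, Chain M X ν j z → z ∈ F X ν j := by
    intro ν j z hz
    induction hz with
    | start j w hw => exact (h1.two j w).2 hw
    | step ν j j' z Γ _ hΓ h0 ih => exact h2.gr Γ ν j j' hΓ h0 z ih
  exact ⟨fun z hz => h1.top 0 z ((h1.one 0 z).2 hz), fun j z hz => h1.top j z (h3 _ _ _ hz)⟩

end min

/-- **Bloch-Beilinson filtrations: one variety at a time.** -/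
theorem bb_tfae (hD : IsChow D) {M : AbelJacobi D} (hM : IsAbelJacobi M) (S : Set 𝒱.Obj)
    (hS : ∀ X, ∃ Z ∈ S, Dominates D Z X) :
    List.TFAE [∃ F, IsBB M Set.univ F, ∀ X ∈ S, ∃ F, IsBB M {X} F, ∀ X ∈ S, NoObstruction M X] := by
  tfae_have 1 → 2 := by
    rintro ⟨F, hF⟩ X _
    exact ⟨F, fun Y _ => hF.1 Y (Set.mem_univ _), fun Y _ Z _ => hF.2 Y (Set.mem_univ _) Z
      (Set.mem_univ _)⟩
  tfae_have 2 → 3 := by
    intro h X hX
    obtain ⟨F, hF⟩ := h X hX
    exact noObstruction hF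
  tfae_have 3 → 1 := fun h => ⟨_, isBB_minF hD hM hS h⟩
  tfae_finish

end Pool.Agent.H934.BB
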